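import Pool.Agent.Lib.AZero.Plug

namespace Pool.Agent.Results.MP_63c928_gt.AssemblyZero

open Pool.Agent.AZero Pool.Agent.NilV

theorem result (G : Type) [Group G] (hG : Generated (fun H _ => Seed H) G) :
    ∃ α : Src G ≃+ A0 (BG G), IsAssembly α :=
  assembly_gen G hG

end Pool.Agent.Results.MP_63c928_gt.AssemblyZero
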