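import Pool.Agent.Lib.NIL.FinalN

namespace Pool.Agent.Results.MP_63c928_gt.NilVanishing

open Pool.Agent.NilN Pool.Agent.WhDet

theorem result (G : Type) [Group G] (hG : Hierarchical G)
    (htf : ∀ g : G, IsOfFinOrder g → g = 1) (T Λ : Type) [Ring T]
    (i : MonoidAlgebra ℤ G →+* T) (x : Λ → T) (hT : IsTensorRing i x) :
    Function.Bijective (K1.map i) :=
  Pool.Agent.Lib.NIL.final_nil G hG htf T Λ i x hT

end Pool.Agent.Results.MP_63c928_gt.NilVanishing
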