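import Pool.Agent.Lib.MP_63c928_gt.SY.C2

/-! Systolic graphs of bounded degree are coarsely dense in proper, finite-dimensional spaces
with a unique convex geodesic bicombing, equivariantly. -/

open Pool.Agent.Lib.MP_63c928_gt.SY

theorem Pool.Agent.Results.MP_63c928_gt.Systolic.result {Γ V : Type} [Group Γ] [MulAction Γ V]
    (G : SimpleGraph V) (hG : IsSystolic G) (hd : ∃ D : ℕ, ∀ v, (G.neighborSet v).encard ≤ D)
    (hΓ : ∀ (g : Γ) v w, G.Adj v w → G.Adj (g • v) (g • w)) :
    ∃ (Y : Type) (_ : MetricSpace Y) (_ : MulAction Γ Y) (ι : V → Y) (σ : Y → Y → ℝ → Y),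
      IsModel Γ G ι σ := by
  have := hG.connected.nonempty
  obtain ⟨Y, _, ι, ρ, σ, h0, h1, h2, h3, h4, h5, h6, h7, h8⟩ := (hG.br hd).main (Γ := Γ)
    fun g x y => congrArg Nat.cast (smul_dist hG.connected hΓ g x y)
  let a : MulAction Γ Y :=
    { smul := fun g y => ρ g y
      one_smul := fun y => show ρ 1 y = y by simp
      mul_smul := fun g h y => show ρ (g * h) y = ρ g (ρ h y) by simp }
  exact ⟨Y, _, a, ι, σ, h0, h1, fun g => (ρ g).dist_eq, proper_act (hG.br hd) h2 h3 h4,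
    cocompact_act h3 h4, h2, h3, h4, h5, h6, h7, h8⟩
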