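import Pool.Agent.Lib.NIL.FinalW

namespace Pool.Agent.Results.MP_63c928_gt.WhiteheadVanishing

open Pool.Agent.NilV Pool.Agent.WhDet

theorem result (G : Type) [Group G] (hG : Generated (fun H _ => FlatSeed H) G) (n : ℕ) :
    Subsingleton (Wh (G × Multiplicative (Fin n → ℤ))) :=
  Pool.Agent.Lib.NIL.final_wh G hG n

end Pool.Agent.Results.MP_63c928_gt.WhiteheadVanishing
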